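import Pool.Agent.H818R2.Rankin

/-! Points of a separated set with a large component in a given subspace (MP_b5f63d_co). -/

open MeasureTheory Metric Filter Set
open scoped Topology InnerProductSpace

set_option autoImplicit false

namespace Pool.Agent.H976R3.Kiss

open Pool.Agent.H818R2

section point

variable {E : Type*} [NormedAddCommGroup E] [InnerProductSpace ℝ E]

/-- Blichfeldt's inequality: at most `1 / (2 κ)` points with pairwise distances at least one lie at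
squared distance at most `1 / 2 - κ` from a given point. -/
lemma blichfeldt {A : Finset E} (hA : ∀ x ∈ A, ∀ y ∈ A, x ≠ y → 1 ≤ ‖x - y‖ ^ 2) {z : E} {κ : ℝ}
    (h : ∀ x ∈ A, ‖x - z‖ ^ 2 ≤ 1 / 2 - κ) : (A.card : ℝ) * (2 * κ) ≤ 1 := by
  classical
  rcases A.eq_empty_or_nonempty with rfl | hne
  · simp
  have hc : (0 : ℝ) < A.card := by exact_mod_cast hne.card_pos
  have h1 : ∑ x ∈ A, ∑ y ∈ A, ‖x - y‖ ^ 2 =
      2 * (A.card : ℝ) * ∑ x ∈ A, ‖x - z‖ ^ 2 - 2 * ‖∑ x ∈ A, (x - z)‖ ^ 2 := by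
    have e1 : ∀ x y : E, ‖x - y‖ ^ 2 = ‖x - z‖ ^ 2 - 2 * ⟪x - z, y - z⟫_ℝ + ‖y - z‖ ^ 2 := by
      intro x y
      have : x - y = (x - z) - (y - z) := by abel
      rw [this, norm_sub_sq_real]
    have e2 : ‖∑ x ∈ A, (x - z)‖ ^ 2 = ∑ x ∈ A, ∑ y ∈ A, ⟪x - z, y - z⟫_ℝ := by
      rw [← real_inner_self_eq_norm_sq, sum_inner]
      exact Finset.sum_congr rfl fun x _ => inner_sum _ _ _
    rw [e2, Finset.sum_congr rfl fun x _ => Finset.sum_congr rfl fun y _ => e1 x y]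
    simp only [Finset.sum_add_distrib, Finset.sum_sub_distrib, Finset.sum_const,
      nsmul_eq_mul, ← Finset.mul_sum]
    ring
  have h2 : ∑ x ∈ A, ‖x - z‖ ^ 2 ≤ A.card * (1 / 2 - κ) := by
    calc ∑ x ∈ A, ‖x - z‖ ^ 2 ≤ ∑ _x ∈ A, (1 / 2 - κ) := Finset.sum_le_sum h
      _ = _ := by rw [Finset.sum_const, nsmul_eq_mul]
  have h3 : (A.card : ℝ) * (A.card - 1) ≤ ∑ x ∈ A, ∑ y ∈ A, ‖x - y‖ ^ 2 := by
    have e1 : ∀ x ∈ A, (A.card : ℝ) - 1 ≤ ∑ y ∈ A, ‖x - y‖ ^ 2 := by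
      intro x hx
      calc (A.card : ℝ) - 1 = ∑ _y ∈ A.erase x, (1 : ℝ) := by
            rw [Finset.sum_const, nsmul_eq_mul, mul_one, Finset.card_erase_of_mem hx,
              Nat.cast_sub hne.card_pos]
            simp
        _ ≤ ∑ y ∈ A.erase x, ‖x - y‖ ^ 2 := Finset.sum_le_sum fun y hy =>
            hA x hx y (Finset.mem_of_mem_erase hy) (Finset.ne_of_mem_erase hy).symm
        _ ≤ ∑ y ∈ A, ‖x - y‖ ^ 2 := Finset.sum_le_sum_of_subset_of_nonneg
            (Finset.erase_subset _ _) fun _ _ _ => sq_nonneg _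
    calc (A.card : ℝ) * (A.card - 1) = ∑ _x ∈ A, ((A.card : ℝ) - 1) := by
          rw [Finset.sum_const, nsmul_eq_mul]
      _ ≤ _ := Finset.sum_le_sum e1
  have h4 := sq_nonneg ‖∑ x ∈ A, (x - z)‖
  have h5 : (A.card : ℝ) * (A.card - 1) ≤ A.card * (A.card * (1 - 2 * κ)) := by
    rw [h1] at h3
    have h6 : 2 * (A.card : ℝ) * ∑ x ∈ A, ‖x - z‖ ^ 2 ≤
        2 * (A.card : ℝ) * (A.card * (1 / 2 - κ)) :=
      mul_le_mul_of_nonneg_left h2 (by positivity)
    nlinarith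
  have h6 := le_of_mul_le_mul_left h5 hc
  linarith

/-- the cylinder used below -/
def cyl (u : E) (a κ β : ℝ) : Set E :=
  {z : E | (a - κ ≤ ⟪u, z⟫_ℝ ∧ ⟪u, z⟫_ℝ ≤ a) ∧ ‖z‖ ^ 2 - ⟪u, z⟫_ℝ ^ 2 ≤ β ^ 2}

lemma cyl_closed (u : E) (a κ β : ℝ) : IsClosed (cyl u a κ β) := by
  have hc : Continuous fun z : E => ⟪u, z⟫_ℝ := continuous_const.inner continuous_id
  apply IsClosed.inter
  · exact (isClosed_le continuous_const hc).inter (isClosed_le hc continuous_const)
  · exact isClosed_le ((continuous_norm.pow 2).sub (hc.pow 2)) continuous_const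

lemma cyl_sub {u : E} {a κ β t : ℝ} (hκ : 0 < κ) (ha : κ ≤ a) (ht0 : 0 ≤ t)
    (ht : a ^ 2 + β ^ 2 ≤ t ^ 2) : cyl u a κ β ⊆ closedBall 0 t := by
  rintro z ⟨⟨h1, h2⟩, h3⟩
  rw [mem_closedBall, dist_zero_right]
  apply le_of_sq_le_sq _ ht0
  nlinarith

lemma cyl_dist {u : E} (hu : ‖u‖ = 1) {a κ β σ R : ℝ} (hκ : 0 < κ) (hσ : 0 ≤ σ)
    (hσR : σ ≤ R) (haR : a ≤ R - a) {z : E} (hz : z ∈ cyl u a κ β) :
    ‖σ • u - z‖ ^ 2 ≤ β ^ 2 + (R - a + κ) ^ 2 := by
  obtain ⟨⟨h1, h2⟩, h3⟩ := hz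
  have e : ‖σ • u - z‖ ^ 2 = ‖z‖ ^ 2 - 2 * σ * ⟪u, z⟫_ℝ + σ ^ 2 := by
    rw [norm_sub_sq_real, norm_smul, hu, Real.norm_of_nonneg hσ, inner_smul_left]
    simp
    ring
  rw [e]
  have h4 : (σ - ⟪u, z⟫_ℝ) ^ 2 ≤ (R - a + κ) ^ 2 := by
    apply sq_le_sq'
    · linarith
    · linarith
  nlinarith

end point

section count

variable {E : Type*} [NormedAddCommGroup E] [InnerProductSpace ℝ E] [FiniteDimensional ℝ E]
  [MeasurableSpace E] [BorelSpace E]

/-- Volume bound for the number of separated points with a large component in `W`. -/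
theorem count (W : Submodule ℝ E) (hW : 0 < Module.finrank ℝ Wᗮ) {A : Finset E}
    (hA : ∀ x ∈ A, ∀ y ∈ A, x ≠ y → 1 ≤ ‖x - y‖ ^ 2)
    {a κ β t R : ℝ} (hκ : 0 < κ) (ha : κ ≤ a) (haR : a ≤ R - a) (hβ : 0 ≤ β) (ht0 : 0 ≤ t)
    (ht : a ^ 2 + β ^ 2 ≤ t ^ 2) (hsum : κ ^ 2 + (β ^ 2 + (R - a + κ) ^ 2) ≤ 1 / 2 - κ)
    (h1 : ∀ x ∈ A, ‖W.orthogonalProjectionOnto x‖ ≤ 1)
    (h2 : ∀ x ∈ A, ‖Wᗮ.orthogonalProjectionOnto x‖ ≤ R) :
    (A.card : ℝ) * (κ ^ (Module.finrank ℝ W + 2) * β ^ (Module.finrank ℝ Wᗮ - 1)) ≤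
      (1 + κ) ^ Module.finrank ℝ W * t ^ Module.finrank ℝ Wᗮ := by
  classical
  set k := Module.finrank ℝ W with hk
  set m := Module.finrank ℝ Wᗮ with hm
  have hnt : Nontrivial Wᗮ := Module.nontrivial_of_finrank_pos (R := ℝ) hW
  obtain ⟨u0, hu0⟩ : ∃ u : Wᗮ, ‖u‖ = 1 := exists_norm_eq _ zero_le_one
  -- unit vector attached to a point
  have hex : ∀ x : E, ∃ u : Wᗮ, ‖u‖ = 1 ∧
      ‖Wᗮ.orthogonalProjectionOnto x‖ • u = Wᗮ.orthogonalProjectionOnto x := by
    intro x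
    by_cases h0 : Wᗮ.orthogonalProjectionOnto x = 0
    · exact ⟨u0, hu0, by rw [h0]; simp⟩
    · have h0' : ‖Wᗮ.orthogonalProjectionOnto x‖ ≠ 0 := norm_ne_zero_iff.2 h0
      refine ⟨‖Wᗮ.orthogonalProjectionOnto x‖⁻¹ • Wᗮ.orthogonalProjectionOnto x, ?_, ?_⟩
      · rw [norm_smul, norm_inv, norm_norm, inv_mul_cancel₀ h0']
      · rw [smul_smul, mul_inv_cancel₀ h0', one_smul]
  choose u hu1 hu2 using hex
  let B : E → Set (W × Wᗮ) := fun x =>
    closedBall (W.orthogonalProjectionOnto x) κ ×ˢ cyl (u x) a κ β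
  let Z : Set (W × Wᗮ) := closedBall (0 : W) (1 + κ) ×ˢ closedBall (0 : Wᗮ) t
  have hBm : ∀ x, MeasurableSet (B x) := fun x =>
    (measurableSet_closedBall).prod (cyl_closed _ _ _ _).measurableSet
  have hZm : MeasurableSet Z := measurableSet_closedBall.prod measurableSet_closedBall
  have hBZ : ∀ x ∈ A, B x ⊆ Z := by
    intro x hx
    apply Set.prod_mono
    · apply closedBall_subset_closedBall'
      rw [dist_zero_right]
      linarith [h1 x hx]
    · exact cyl_sub hκ ha ht0 ht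
  -- multiplicity
  have hmult : ∀ p : W × Wᗮ, ((A.filter fun x => p ∈ B x).card : ℝ) * (2 * κ) ≤ 1 := by
    intro p
    refine blichfeldt (z := (p.1 : E) + (p.2 : E)) ?_ ?_
    · intro x hx y hy hxy
      exact hA x (Finset.mem_filter.1 hx).1 y (Finset.mem_filter.1 hy).1 hxy
    · intro x hx
      obtain ⟨hxA, hxB⟩ := Finset.mem_filter.1 hx
      obtain ⟨hb1, hb2⟩ := hxB
      have e1 : ‖x - ((p.1 : E) + (p.2 : E))‖ ^ 2 =
          ‖W.orthogonalProjectionOnto x - p.1‖ ^ 2 +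
          ‖Wᗮ.orthogonalProjectionOnto x - p.2‖ ^ 2 := by
        have h3 := W.norm_sq_eq_add_norm_sq_projection (x - ((p.1 : E) + (p.2 : E)))
        have h4 : W.orthogonalProjectionOnto (x - ((p.1 : E) + (p.2 : E))) =
            W.orthogonalProjectionOnto x - p.1 := by
          simp [map_sub, map_add]
        have h5 : Wᗮ.orthogonalProjectionOnto (x - ((p.1 : E) + (p.2 : E))) =
            Wᗮ.orthogonalProjectionOnto x - p.2 := by
          simp [map_sub, map_add]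
        rw [h3, h4, h5]
      have e2 : ‖W.orthogonalProjectionOnto x - p.1‖ ^ 2 ≤ κ ^ 2 := by
        have : dist p.1 (W.orthogonalProjectionOnto x) ≤ κ := hb1
        rw [dist_comm, dist_eq_norm] at this
        exact pow_le_pow_left₀ (norm_nonneg _) this 2
      have e3 : ‖Wᗮ.orthogonalProjectionOnto x - p.2‖ ^ 2 ≤ β ^ 2 + (R - a + κ) ^ 2 := by
        have := cyl_dist (hu1 x) hκ (norm_nonneg (Wᗮ.orthogonalProjectionOnto x)) (h2 x hxA)
          haR hb2
        rwa [hu2 x] at this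
      rw [e1]
      linarith
  -- volumes
  have hZfin : (volume : Measure (W × Wᗮ)) Z ≠ ⊤ := by
    rw [Measure.volume_eq_prod, Measure.prod_prod]
    exact ENNReal.mul_ne_top measure_closedBall_lt_top.ne measure_closedBall_lt_top.ne
  have hvZ : (volume : Measure (W × Wᗮ)).real Z =
      ((1 + κ) ^ k * vb W) * (t ^ m * vb Wᗮ) := by
    rw [measureReal_def, Measure.volume_eq_prod, Measure.prod_prod, ENNReal.toReal_mul,
      ← measureReal_def, ← measureReal_def, vol_closedBall _ (by linarith), vol_closedBall _ ht0]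
  have hvB : ∀ x, (κ ^ k * vb W) * (κ * β ^ (m - 1) * (vb Wᗮ / 2)) ≤
      (volume : Measure (W × Wᗮ)).real (B x) := by
    intro x
    rw [measureReal_def, Measure.volume_eq_prod, Measure.prod_prod, ENNReal.toReal_mul,
      ← measureReal_def, ← measureReal_def, vol_closedBall _ hκ.le]
    apply mul_le_mul_of_nonneg_left _ (mul_nonneg (by positivity) vb_pos.le)
    have := cyl_vol (hu1 x) (a := a - κ) (b := a) (by linarith) hβ
    have e : a - (a - κ) = κ := by ring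
    rw [e] at this
    exact this
  -- integration
  have hsumm : ∑ x ∈ A, (volume : Measure (W × Wᗮ)).real (B x) * (2 * κ) ≤
      (volume : Measure (W × Wᗮ)).real Z := by
    have hBfin : ∀ x ∈ A, (volume : Measure (W × Wᗮ)) (B x) ≠ ⊤ := fun x hx =>
      ((measure_mono (hBZ x hx)).trans_lt (lt_top_iff_ne_top.2 hZfin)).ne
    have i1 : ∀ x ∈ A, Integrable ((B x).indicator fun _ : W × Wᗮ => (2 * κ : ℝ)) volume := by
      intro x hx
      exact (integrable_indicator_iff (hBm x)).2 (integrableOn_const (hBfin x hx))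
    have i2 : Integrable (Z.indicator fun _ : W × Wᗮ => (1 : ℝ)) volume :=
      (integrable_indicator_iff hZm).2 (integrableOn_const hZfin)
    have h3 : ∀ x ∈ A, (volume : Measure (W × Wᗮ)).real (B x) * (2 * κ) =
        ∫ p, (B x).indicator (fun _ : W × Wᗮ => (2 * κ : ℝ)) p := by
      intro x hx
      rw [integral_indicator (hBm x), setIntegral_const, smul_eq_mul]
    have h4 : (volume : Measure (W × Wᗮ)).real Z = ∫ p, Z.indicator (fun _ : W × Wᗮ => (1 : ℝ)) p := by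
      rw [integral_indicator hZm, setIntegral_const, smul_eq_mul, mul_one]
    rw [Finset.sum_congr rfl h3, h4, ← integral_finsetSum _ i1]
    apply integral_mono (integrable_finsetSum _ i1) i2
    intro p
    show ∑ x ∈ A, (B x).indicator (fun _ : W × Wᗮ => (2 * κ : ℝ)) p ≤ _
    by_cases hp : p ∈ Z
    · rw [Set.indicator_of_mem hp]
      have h5 : ∑ x ∈ A, (B x).indicator (fun _ : W × Wᗮ => (2 * κ : ℝ)) p =
          ((A.filter fun x => p ∈ B x).card : ℝ) * (2 * κ) := by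
        simp only [Set.indicator_apply]
        rw [← Finset.sum_filter, Finset.sum_const, nsmul_eq_mul]
      rw [h5]
      exact hmult p
    · rw [Set.indicator_of_notMem hp]
      apply le_of_eq
      apply Finset.sum_eq_zero
      intro x hx
      exact Set.indicator_of_notMem (fun h => hp (hBZ x hx h)) _
  have hfin : (A.card : ℝ) * (((κ ^ k * vb W) * (κ * β ^ (m - 1) * (vb Wᗮ / 2))) * (2 * κ)) ≤
      ((1 + κ) ^ k * vb W) * (t ^ m * vb Wᗮ) := by
    rw [← hvZ]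
    refine le_trans ?_ hsumm
    rw [← nsmul_eq_mul, ← Finset.sum_const]
    exact Finset.sum_le_sum fun x _ => mul_le_mul_of_nonneg_right (hvB x) (by positivity)
  have hv1 : 0 < vb W := vb_pos
  have hv2 : 0 < vb Wᗮ := vb_pos
  have e : (A.card : ℝ) * (((κ ^ k * vb W) * (κ * β ^ (m - 1) * (vb Wᗮ / 2))) * (2 * κ)) =
      ((A.card : ℝ) * (κ ^ (k + 2) * β ^ (m - 1))) * (vb W * vb Wᗮ) := by ring
  rw [e] at hfin
  have e2 : ((1 + κ) ^ k * vb W) * (t ^ m * vb Wᗮ) =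
      ((1 + κ) ^ k * t ^ m) * (vb W * vb Wᗮ) := by ring
  rw [e2] at hfin
  exact le_of_mul_le_mul_right hfin (by positivity)

end count

end Pool.Agent.H976R3.Kiss
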