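import Pool.Agent.H161R2.KissWyner
import Pool.Agent.H976R3.KissPoint

/-! Asymptotic form of the bounds for the points near a subspace (MP_b5f63d_co). -/

open Filter
open scoped InnerProductSpace

set_option autoImplicit false

namespace Pool.Agent.H976R3.Kiss

open Pool.Agent.H818R2

/-- the parameters of the volume argument -/
lemma params {η : ℝ} (h0 : 0 < η) (h1 : η ≤ 1 / 12) : ∃ a κ β t R : ℝ, 0 < κ ∧ κ ≤ 1 ∧ κ ≤ a ∧
    a ≤ R - a ∧ 0 < β ∧ 0 ≤ t ∧ t ≤ 1 ∧ 0 ≤ R ∧ R ^ 2 = 2 / 3 - η ∧ a ^ 2 + β ^ 2 ≤ t ^ 2 ∧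
    κ ^ 2 + (β ^ 2 + (R - a + κ) ^ 2) ≤ 1 / 2 - κ ∧ t ^ 2 ≤ (4 / 3 - η) * β ^ 2 := by
  have hRR : (0 : ℝ) < 2 / 3 - η := by linarith
  set R := √(2 / 3 - η) with hR
  have hR2 : R ^ 2 = 2 / 3 - η := Real.sq_sqrt hRR.le
  have hR0 : 0 < R := Real.sqrt_pos.2 hRR
  have hR1 : R ≤ 1 := by
    by_contra h
    push Not at h
    nlinarith
  set T := 1 / 6 - η with hT
  have hT0 : 1 / 12 ≤ T := by linarith
  set t := √T with ht
  have ht2 : t ^ 2 = T := Real.sq_sqrt (by linarith)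
  have ht0 : 0 ≤ t := Real.sqrt_nonneg _
  set a := T / R with ha
  have haR : a * R = T := by rw [ha]; field_simp
  have ha0 : 0 < a := by positivity
  have ha1 : 1 / 12 ≤ a := by
    rw [ha, le_div_iff₀ hR0]
    nlinarith
  set B := T - a ^ 2 with hB
  have hB2 : B * (2 * R ^ 2) = T := by
    have e : a ^ 2 * R ^ 2 = T ^ 2 := by rw [← mul_pow, haR]
    rw [hB, sub_mul, show a ^ 2 * (2 * R ^ 2) = 2 * (a ^ 2 * R ^ 2) by ring, e, hR2, hT]
    ring
  have hB16 : 1 / 16 ≤ B := by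
    by_contra h
    push Not at h
    have : B * (2 * R ^ 2) < 1 / 16 * (2 * R ^ 2) := by
      apply mul_lt_mul_of_pos_right h (by positivity)
    rw [hB2, hR2] at this
    linarith
  set κ := η / 112 with hκ
  have hκ0 : 0 < κ := by positivity
  have hκ1 : κ ≤ 1 / 1344 := by rw [hκ]; linarith
  set β := √(B - 5 * κ) with hβ
  have hβ2 : β ^ 2 = B - 5 * κ := Real.sq_sqrt (by linarith)
  have hβ0 : 0 < β := Real.sqrt_pos.2 (by linarith)
  have haRa : a ≤ R - a := by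
    have h3 : 2 * a * R ≤ R * R := by nlinarith
    have := le_of_mul_le_mul_right h3 hR0
    linarith
  refine ⟨a, κ, β, t, R, hκ0, by linarith, by linarith, haRa, hβ0, ht0, ?_, hR0.le, hR2, ?_, ?_, ?_⟩
  · by_contra h
    push Not at h
    nlinarith
  · rw [hβ2, ht2]; linarith
  · have e : (R - a + κ) ^ 2 = R ^ 2 - 2 * (a * R) + a ^ 2 + 2 * κ * (R - a) + κ ^ 2 := by ring
    rw [e, hβ2, hR2, haR]
    have h3 : κ * (R - a) ≤ κ * 1 := mul_le_mul_of_nonneg_left (by linarith) hκ0.le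
    have h4 : κ ^ 2 ≤ κ * 1 := by rw [pow_two]; exact mul_le_mul_of_nonneg_left (by linarith) hκ0.le
    rw [hB, hT]
    nlinarith
  · rw [ht2, hβ2]
    have e : T = B * (4 / 3 - 2 * η) := by
      rw [← hB2, hR2]; ring
    rw [e]
    have h3 : 5 * κ * (4 / 3 - η) ≤ B * η := by
      have h4 : 5 * κ * (4 / 3 - η) ≤ 5 * κ * (4 / 3) :=
        mul_le_mul_of_nonneg_left (by linarith) (by positivity)
      have h5 : 1 / 16 * η ≤ B * η := mul_le_mul_of_nonneg_right hB16 h0.le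
      rw [hκ] at h4 ⊢
      linarith
    nlinarith



/-- Bound for one subspace, with explicit exponents. -/
theorem near_le {η : ℝ} (h0 : 0 < η) (h1 : η ≤ 1 / 12) : ∃ κ : ℝ, 0 < κ ∧ κ ≤ 1 ∧
    ∀ (n : ℕ) [NeZero n], ∀ X, IsSphCode n (Real.pi / 3) X →
      ∀ W : Submodule ℝ (EuclideanSpace ℝ (Fin n)), Module.finrank ℝ W < n →
      ∀ A ⊆ X, (∀ x ∈ A, 1 / 3 + η ≤ ‖W.orthogonalProjectionOnto x‖ ^ 2) →
      (A.card : ℝ) * κ ^ 2 ≤
        (2 / κ) ^ Module.finrank ℝ W * √(1 - 3 * η / 4) ^ n * kissing n := by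
  obtain ⟨a, κ, β, t, R, hκ, hκ1, ha, haR, hβ, ht0, ht1, hR0, hR, ht, hsum, hq⟩ := params h0 h1
  refine ⟨κ, hκ, hκ1, fun n _ X hX W hWn A hAX hA => ?_⟩
  set k := Module.finrank ℝ W with hk
  have hfr : Module.finrank ℝ W + Module.finrank ℝ Wᗮ = n := by
    have := W.finrank_add_finrank_orthogonal
    rwa [finrank_euclideanSpace_fin] at this
  have hm : 0 < Module.finrank ℝ Wᗮ := by omega
  obtain ⟨m, hm'⟩ : ∃ m, Module.finrank ℝ Wᗮ = m + 1 := ⟨_, (Nat.succ_pred_eq_of_pos hm).symm⟩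
  have hsep : ∀ x ∈ A, ∀ y ∈ A, x ≠ y → 1 ≤ ‖x - y‖ ^ 2 := by
    intro x hx y hy hxy
    have h2 := hX.2 x (hAX hx) y (hAX hy) hxy
    rw [Real.cos_pi_div_three] at h2
    rw [norm_sub_sq_real, hX.1 x (hAX hx), hX.1 y (hAX hy)]
    linarith
  have hnorm : ∀ x ∈ A, ‖W.orthogonalProjectionOnto x‖ ^ 2 + ‖Wᗮ.orthogonalProjectionOnto x‖ ^ 2
      = 1 := by
    intro x hx
    have h3 := W.norm_sq_eq_add_norm_sq_projection x
    rw [hX.1 x (hAX hx)] at h3
    linarith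
  have hc := count W hm hsep hκ ha haR hβ.le ht0 ht hsum (fun x hx => by
      have h3 := hnorm x hx
      have h4 := sq_nonneg ‖Wᗮ.orthogonalProjectionOnto x‖
      apply le_of_sq_le_sq _ zero_le_one
      linarith) (fun x hx => by
      have h3 := hnorm x hx
      have h4 := hA x hx
      apply le_of_sq_le_sq _ hR0
      rw [hR]
      linarith)
  rw [hm', ← hk, Nat.add_sub_cancel] at hc
  set q := √(4 / 3 - η) with hqd
  have hq1 : 1 ≤ q := by
    rw [hqd]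
    apply Real.one_le_sqrt.2
    linarith
  have hq2 : q ^ 2 = 4 / 3 - η := Real.sq_sqrt (by linarith)
  have htq : t ≤ q * β := by
    apply le_of_sq_le_sq _ (by positivity)
    rw [mul_pow, hq2]
    exact hq
  have h3 : t ^ (m + 1) ≤ q ^ n * β ^ m := by
    calc t ^ (m + 1) = t ^ m * t := pow_succ _ _
      _ ≤ (q * β) ^ m * 1 := mul_le_mul (pow_le_pow_left₀ ht0 htq m) ht1 ht0 (by positivity)
      _ = q ^ m * β ^ m := by rw [mul_one, mul_pow]
      _ ≤ q ^ n * β ^ m := mul_le_mul_of_nonneg_right (pow_le_pow_right₀ hq1 (by omega))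
          (by positivity)
  have h4 : (1 + κ) ^ k ≤ 2 ^ k := pow_le_pow_left₀ (by linarith) (by linarith) k
  have h5 : ((A.card : ℝ) * κ ^ 2 * κ ^ k) * β ^ m ≤ (2 ^ k * q ^ n) * β ^ m := by
    calc ((A.card : ℝ) * κ ^ 2 * κ ^ k) * β ^ m = (A.card : ℝ) * (κ ^ (k + 2) * β ^ m) := by ring
      _ ≤ (1 + κ) ^ k * t ^ (m + 1) := hc
      _ ≤ 2 ^ k * (q ^ n * β ^ m) := mul_le_mul h4 h3 (by positivity) (by positivity)
      _ = _ := by ring
  have h6 := le_of_mul_le_mul_right h5 (by positivity)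
  have h7 : (A.card : ℝ) * κ ^ 2 ≤ (2 / κ) ^ k * q ^ n := by
    rw [div_pow, div_mul_eq_mul_div, le_div_iff₀ (by positivity)]
    exact h6
  have hw := Pool.Agent.H161R2.KissSym.wyner n
  have hs : q * (√3 / 2) = √(1 - 3 * η / 4) := by
    have h8 : √3 / 2 = √(3 / 4) := by
      rw [show (3 / 4 : ℝ) = 3 / 2 ^ 2 by norm_num, Real.sqrt_div (by norm_num),
        Real.sqrt_sq (by norm_num)]
    rw [h8, hqd, ← Real.sqrt_mul (by linarith)]
    congr 1
    ring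
  calc (A.card : ℝ) * κ ^ 2 ≤ ((2 / κ) ^ k * q ^ n) * 1 := by rw [mul_one]; exact h7
    _ ≤ ((2 / κ) ^ k * q ^ n) * ((kissing n : ℝ) * (√3 / 2) ^ n) :=
        mul_le_mul_of_nonneg_left hw (by positivity)
    _ = (2 / κ) ^ k * (q * (√3 / 2)) ^ n * kissing n := by rw [mul_pow]; ring
    _ = _ := by rw [hs]

/-- Asymptotic form. -/
theorem near_asym {η : ℝ} (hη : 0 < η) : ∃ δ ε : ℝ, 0 < δ ∧ 0 < ε ∧ ∀ᶠ n : ℕ in atTop,
    ∀ X, IsSphCode n (Real.pi / 3) X →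
      ∀ W : Submodule ℝ (EuclideanSpace ℝ (Fin n)), (Module.finrank ℝ W : ℝ) ≤ δ * n →
      ∀ A ⊆ X, (∀ x ∈ A, 1 / 3 + η ≤ ‖W.orthogonalProjectionOnto x‖ ^ 2) →
      (A.card : ℝ) ≤ (2 : ℝ) ^ (-ε * n) * kissing n := by
  set η' := min η (1 / 12) with hη'
  have h0 : 0 < η' := lt_min hη (by norm_num)
  have h1 : η' ≤ 1 / 12 := min_le_right _ _
  obtain ⟨κ, hκ, hκ1, H⟩ := near_le h0 h1
  set μ := √(1 - 3 * η' / 4) with hμ
  have hμ0 : 0 < μ := Real.sqrt_pos.2 (by linarith)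
  have hμ1 : μ < 1 := by
    rw [hμ]
    apply (Real.sqrt_lt' one_pos).2
    linarith
  set L := -Real.log μ with hL
  have hL0 : 0 < L := by
    rw [hL]
    have := Real.log_neg hμ0 hμ1
    linarith
  have h2κ : 1 < 2 / κ := by
    rw [lt_div_iff₀ hκ]
    linarith
  set M := Real.log (2 / κ) with hM
  have hM0 : 0 < M := Real.log_pos h2κ
  have hl2 : 0 < Real.log 2 := Real.log_pos (by norm_num)
  refine ⟨min (1 / 2) (L / (2 * M)), L / (4 * Real.log 2), lt_min (by norm_num) (by positivity),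
    by positivity, ?_⟩
  have hev : ∀ᶠ n : ℕ in atTop, Real.log (κ ^ 2)⁻¹ ≤ n * (L / 4) := by
    have ht : Tendsto (fun n : ℕ => (n : ℝ) * (L / 4)) atTop atTop :=
      tendsto_natCast_atTop_atTop.atTop_mul_const (by positivity)
    exact ht.eventually_ge_atTop _
  filter_upwards [hev, eventually_gt_atTop 0] with n hn hn0 X hX W hW A hAX hA
  have : NeZero n := ⟨by omega⟩
  have hn0' : (0 : ℝ) < n := by exact_mod_cast hn0
  have hWn : Module.finrank ℝ W < n := by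
    have h3 : (Module.finrank ℝ W : ℝ) ≤ 1 / 2 * n :=
      hW.trans (mul_le_mul_of_nonneg_right (min_le_left _ _) hn0'.le)
    have h4 : (Module.finrank ℝ W : ℝ) < n := by linarith
    exact_mod_cast h4
  have h2 := H n X hX W hWn A hAX (fun x hx => (by
    have := min_le_left η (1 / 12)
    linarith : 1 / 3 + η' ≤ 1 / 3 + η).trans (hA x hx))
  set k := Module.finrank ℝ W with hk
  have hκ2 : 0 < κ ^ 2 := by positivity
  have h3 : (A.card : ℝ) ≤ (κ ^ 2)⁻¹ * ((2 / κ) ^ k * μ ^ n) * kissing n := by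
    rw [mul_assoc, ← div_eq_inv_mul, le_div_iff₀ hκ2]
    exact h2
  apply h3.trans
  apply mul_le_mul_of_nonneg_right _ (Nat.cast_nonneg _)
  have e1 : (κ ^ 2)⁻¹ ≤ Real.exp (n * (L / 4)) := by
    rw [← Real.log_le_iff_le_exp (by positivity)]
    exact hn
  have e2 : (2 / κ) ^ k ≤ Real.exp (n * (L / 2)) := by
    rw [← Real.log_le_iff_le_exp (by positivity), Real.log_pow]
    have h4 : (k : ℝ) ≤ L / (2 * M) * n :=
      hW.trans (mul_le_mul_of_nonneg_right (min_le_right _ _) hn0'.le)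
    calc (k : ℝ) * Real.log (2 / κ) ≤ (L / (2 * M) * n) * M :=
          mul_le_mul_of_nonneg_right h4 hM0.le
      _ = n * (L / 2) := by field_simp
  have e3 : μ ^ n = Real.exp (-(n * L)) := by
    rw [hL, ← Real.exp_log hμ0, ← Real.exp_nat_mul, Real.log_exp]
    congr 1
    ring
  calc (κ ^ 2)⁻¹ * ((2 / κ) ^ k * μ ^ n)
      ≤ Real.exp (n * (L / 4)) * (Real.exp (n * (L / 2)) * Real.exp (-(n * L))) := by
        rw [e3]
        apply mul_le_mul e1 _ (by positivity) (by positivity)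
        exact mul_le_mul_of_nonneg_right e2 (Real.exp_pos _).le
    _ = (2 : ℝ) ^ (-(L / (4 * Real.log 2)) * n) := by
        rw [← Real.exp_add, ← Real.exp_add, Real.rpow_def_of_pos (by norm_num)]
        congr 1
        field_simp
        ring

theorem mass_asym {η : ℝ} (hη : 0 < η) : ∃ δ ε : ℝ, 0 < δ ∧ 0 < ε ∧ ∀ᶠ n : ℕ in atTop,
    ∀ X, IsSphCode n (Real.pi / 3) X →
      ∀ W : Submodule ℝ (EuclideanSpace ℝ (Fin n)), (Module.finrank ℝ W : ℝ) ≤ δ * n →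
      (∀ A ⊆ X, (∀ x ∈ A, 1 / 3 + η ≤ ‖W.orthogonalProjectionOnto x‖ ^ 2) →
        (A.card : ℝ) ≤ (2 : ℝ) ^ (-ε * n) * kissing n) ∧
      ∑ x ∈ X, ‖W.orthogonalProjectionOnto x‖ ^ 2 ≤
        (1 / 3 + η) * X.card + (2 : ℝ) ^ (-ε * n) * kissing n := by
  classical
  obtain ⟨δ, ε, hδ, hε, H⟩ := near_asym hη
  refine ⟨δ, ε, hδ, hε, ?_⟩
  filter_upwards [H] with n hn X hX W hW
  refine ⟨hn X hX W hW, ?_⟩
  have h1 := hn X hX W hW (X.filter fun x => 1 / 3 + η ≤ ‖W.orthogonalProjectionOnto x‖ ^ 2)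
    (Finset.filter_subset _ _) (fun x hx => (Finset.mem_filter.1 hx).2)
  have hle : ∀ x ∈ X, ‖W.orthogonalProjectionOnto x‖ ^ 2 ≤
      (1 / 3 + η) + if 1 / 3 + η ≤ ‖W.orthogonalProjectionOnto x‖ ^ 2 then (1 : ℝ) else 0 := by
    intro x hx
    split_ifs with h
    · have h3 := W.norm_sq_eq_add_norm_sq_projection x
      rw [hX.1 x hx] at h3
      have h4 := sq_nonneg ‖Wᗮ.orthogonalProjectionOnto x‖
      linarith
    · push Not at h
      linarith
  calc ∑ x ∈ X, ‖W.orthogonalProjectionOnto x‖ ^ 2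
      ≤ ∑ x ∈ X, ((1 / 3 + η) +
          if 1 / 3 + η ≤ ‖W.orthogonalProjectionOnto x‖ ^ 2 then (1 : ℝ) else 0) :=
        Finset.sum_le_sum hle
    _ = (1 / 3 + η) * X.card +
        (X.filter fun x => 1 / 3 + η ≤ ‖W.orthogonalProjectionOnto x‖ ^ 2).card := by
        rw [Finset.sum_add_distrib, Finset.sum_const, nsmul_eq_mul, Finset.sum_boole]
        ring
    _ ≤ _ := by linarith

end Pool.Agent.H976R3.Kiss
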