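import Pool.Agent.H818R2.KissDefs

/-! Points of finite sets near subspaces: definitions (MP_b5f63d_co). -/

open scoped InnerProductSpace

namespace Pool.Agent.H976R3.Kiss

variable {E : Type} [NormedAddCommGroup E] [InnerProductSpace ℝ E] [FiniteDimensional ℝ E]

/-- squared length of the orthogonal projection of `x` to the subspace `W` -/
noncomputable def sqProj (W : Submodule ℝ E) (x : E) : ℝ := ‖W.orthogonalProjectionOnto x‖ ^ 2

/-- For every family of at most `K` subspaces of dimension at most `d`, at most `N` points of `X`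
have squared projection `≥ s` to a member of the family. -/
def FewNear (s d K N : ℝ) (X : Finset E) : Prop :=
  ∀ 𝒲 : Finset (Submodule ℝ E), (𝒲.card : ℝ) ≤ K → (∀ W ∈ 𝒲, (Module.finrank ℝ W : ℝ) ≤ d) →
    ∀ A ⊆ X, (∀ x ∈ A, ∃ W ∈ 𝒲, s ≤ sqProj W x) → (A.card : ℝ) ≤ N

omit [FiniteDimensional ℝ E] in
/-- For every orthonormal basis, at most `N` points of `X` have `s` or more of their squared length
on some set of at most `d` coordinates. -/
def FewSparse (s d N : ℝ) (X : Finset E) : Prop :=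
  ∀ (n : ℕ) (b : OrthonormalBasis (Fin n) ℝ E), ∀ A ⊆ X,
    (∀ x ∈ A, ∃ S : Finset (Fin n), (S.card : ℝ) ≤ d ∧ s ≤ ∑ i ∈ S, ⟪b i, x⟫_ℝ ^ 2) →
      (A.card : ℝ) ≤ N

/-- For every subspace `W` of dimension at most `d`, the second moment of `X` on `W` is at most
`s |X| + N`. -/
def SmallMoment (s d N : ℝ) (X : Finset E) : Prop :=
  ∀ W : Submodule ℝ E, (Module.finrank ℝ W : ℝ) ≤ d → ∑ x ∈ X, sqProj W x ≤ s * X.card + N

end Pool.Agent.H976R3.Kiss
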