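import Pool.Agent.H161R2.KissWyner
import Pool.Agent.H976R3.KissPoint
import Pool.Agent.H976R3.KissDefs

/-! Points of kissing configurations near subspaces of proportional dimension (MP_b5f63d_co). -/

open MeasureTheory Metric Filter Set
open scoped Topology InnerProductSpace

set_option autoImplicit false

namespace Pool.Agent.H976R3.Kiss

open Pool.Agent.H818R2

lemma cyl_dist2 {E : Type*} [NormedAddCommGroup E] [InnerProductSpace ℝ E] {u : E} (hu : ‖u‖ = 1)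
    {a κ β σ t : ℝ} (ha : κ ≤ a) (hσ : 0 ≤ σ) (hσ1 : σ ≤ 1) (hκ : 0 < κ)
    (ht : a ^ 2 + β ^ 2 ≤ t ^ 2) {z : E} (hz : z ∈ cyl u a κ β) :
    ‖σ • u - z‖ ^ 2 ≤ σ ^ 2 - 2 * (a * σ) + 2 * κ + t ^ 2 := by
  obtain ⟨⟨h1, h2⟩, h3⟩ := hz
  have e : ‖σ • u - z‖ ^ 2 = ‖z‖ ^ 2 - 2 * σ * ⟪u, z⟫_ℝ + σ ^ 2 := by
    rw [norm_sub_sq_real, norm_smul, hu, Real.norm_of_nonneg hσ, inner_smul_left]
    simp
    ring
  rw [e]
  have h4 : σ * (a - κ) ≤ σ * ⟪u, z⟫_ℝ := mul_le_mul_of_nonneg_left h1 hσ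
  have h5 : ⟪u, z⟫_ℝ ^ 2 ≤ a ^ 2 := by
    apply sq_le_sq'
    · linarith
    · exact h2
  have h6 : σ * κ ≤ 1 * κ := mul_le_mul_of_nonneg_right hσ1 hκ.le
  linarith

section count

variable {E : Type*} [NormedAddCommGroup E] [InnerProductSpace ℝ E] [FiniteDimensional ℝ E]
  [MeasurableSpace E] [BorelSpace E]

/-- unit vector attached to a vector -/
lemma exists_dir (V : Submodule ℝ E) (hV : 0 < Module.finrank ℝ V) (y : V) :
    ∃ u : V, ‖u‖ = 1 ∧ ‖y‖ • u = y := by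
  have hnt : Nontrivial V := Module.nontrivial_of_finrank_pos (R := ℝ) hV
  obtain ⟨u0, hu0⟩ : ∃ u : V, ‖u‖ = 1 := exists_norm_eq _ zero_le_one
  by_cases h0 : y = 0
  · exact ⟨u0, hu0, by rw [h0]; simp⟩
  · have h0' : ‖y‖ ≠ 0 := norm_ne_zero_iff.2 h0
    refine ⟨‖y‖⁻¹ • y, ?_, ?_⟩
    · rw [norm_smul, norm_inv, norm_norm, inv_mul_cancel₀ h0']
    · rw [smul_smul, mul_inv_cancel₀ h0', one_smul]

/-- Volume bound for separated points in terms of the two projections. -/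
theorem count2 (W : Submodule ℝ E) (hk : 0 < Module.finrank ℝ W) (hW : 0 < Module.finrank ℝ Wᗮ)
    {A : Finset E} (hA : ∀ x ∈ A, ∀ y ∈ A, x ≠ y → 1 ≤ ‖x - y‖ ^ 2) (hA1 : ∀ x ∈ A, ‖x‖ = 1)
    {a₁ a₂ β₁ β₂ t₁ t₂ κ : ℝ} (hκ : 0 < κ) (ha₁ : κ ≤ a₁) (ha₂ : κ ≤ a₂) (hβ₁ : 0 ≤ β₁)
    (hβ₂ : 0 ≤ β₂) (ht₁ : 0 ≤ t₁) (ht₂ : 0 ≤ t₂) (h1 : a₁ ^ 2 + β₁ ^ 2 ≤ t₁ ^ 2)
    (h2 : a₂ ^ 2 + β₂ ^ 2 ≤ t₂ ^ 2) (hsum : t₁ ^ 2 + t₂ ^ 2 + 5 * κ ≤ 1 / 2)
    (hc : ∀ x ∈ A, 1 / 2 ≤ a₁ * ‖W.orthogonalProjectionOnto x‖ +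
      a₂ * ‖Wᗮ.orthogonalProjectionOnto x‖) :
    (A.card : ℝ) * (κ ^ 3 * (β₁ ^ (Module.finrank ℝ W - 1) * β₂ ^ (Module.finrank ℝ Wᗮ - 1))) ≤
      2 * (t₁ ^ Module.finrank ℝ W * t₂ ^ Module.finrank ℝ Wᗮ) := by
  classical
  set k := Module.finrank ℝ W with hkd
  set m := Module.finrank ℝ Wᗮ with hm
  choose u hu1 hu2 using fun x : E => exists_dir W hk (W.orthogonalProjectionOnto x)
  choose w hw1 hw2 using fun x : E => exists_dir Wᗮ hW (Wᗮ.orthogonalProjectionOnto x)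
  let B : E → Set (W × Wᗮ) := fun x => cyl (u x) a₁ κ β₁ ×ˢ cyl (w x) a₂ κ β₂
  let Z : Set (W × Wᗮ) := closedBall (0 : W) t₁ ×ˢ closedBall (0 : Wᗮ) t₂
  have hBm : ∀ x, MeasurableSet (B x) := fun x =>
    (cyl_closed _ _ _ _).measurableSet.prod (cyl_closed _ _ _ _).measurableSet
  have hZm : MeasurableSet Z := measurableSet_closedBall.prod measurableSet_closedBall
  have hBZ : ∀ x ∈ A, B x ⊆ Z := fun x _ =>
    Set.prod_mono (cyl_sub hκ ha₁ ht₁ h1) (cyl_sub hκ ha₂ ht₂ h2)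
  have hmult : ∀ p : W × Wᗮ, ((A.filter fun x => p ∈ B x).card : ℝ) * (2 * κ) ≤ 1 := by
    intro p
    refine blichfeldt (z := (p.1 : E) + (p.2 : E)) ?_ ?_
    · intro x hx y hy hxy
      exact hA x (Finset.mem_filter.1 hx).1 y (Finset.mem_filter.1 hy).1 hxy
    · intro x hx
      obtain ⟨hxA, hxB⟩ := Finset.mem_filter.1 hx
      obtain ⟨hb1, hb2⟩ := hxB
      have e1 : ‖x - ((p.1 : E) + (p.2 : E))‖ ^ 2 =
          ‖W.orthogonalProjectionOnto x - p.1‖ ^ 2 +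
          ‖Wᗮ.orthogonalProjectionOnto x - p.2‖ ^ 2 := by
        have h3 := W.norm_sq_eq_add_norm_sq_projection (x - ((p.1 : E) + (p.2 : E)))
        have h4 : W.orthogonalProjectionOnto (x - ((p.1 : E) + (p.2 : E))) =
            W.orthogonalProjectionOnto x - p.1 := by
          simp [map_sub, map_add]
        have h5 : Wᗮ.orthogonalProjectionOnto (x - ((p.1 : E) + (p.2 : E))) =
            Wᗮ.orthogonalProjectionOnto x - p.2 := by
          simp [map_sub, map_add]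
        rw [h3, h4, h5]
      have e0 := W.norm_sq_eq_add_norm_sq_projection x
      rw [hA1 x hxA] at e0
      set σ₁ := ‖W.orthogonalProjectionOnto x‖ with hσ₁
      set σ₂ := ‖Wᗮ.orthogonalProjectionOnto x‖ with hσ₂
      have hs1 : 0 ≤ σ₁ := norm_nonneg _
      have hs2 : 0 ≤ σ₂ := norm_nonneg _
      have e2 := cyl_dist2 (hu1 x) ha₁ hs1 (by nlinarith) hκ h1 hb1
      have e3 := cyl_dist2 (hw1 x) ha₂ hs2 (by nlinarith) hκ h2 hb2
      rw [hσ₁, hu2 x] at e2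
      rw [hσ₂, hw2 x] at e3
      have e4 := hc x hxA
      rw [e1]
      rw [← hσ₁] at e2
      rw [← hσ₂] at e3
      linarith
  have hZfin : (volume : Measure (W × Wᗮ)) Z ≠ ⊤ := by
    rw [Measure.volume_eq_prod, Measure.prod_prod]
    exact ENNReal.mul_ne_top measure_closedBall_lt_top.ne measure_closedBall_lt_top.ne
  have hvZ : (volume : Measure (W × Wᗮ)).real Z = (t₁ ^ k * vb W) * (t₂ ^ m * vb Wᗮ) := by
    rw [measureReal_def, Measure.volume_eq_prod, Measure.prod_prod, ENNReal.toReal_mul,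
      ← measureReal_def, ← measureReal_def, vol_closedBall _ ht₁, vol_closedBall _ ht₂]
  have hvB : ∀ x, (κ * β₁ ^ (k - 1) * (vb W / 2)) * (κ * β₂ ^ (m - 1) * (vb Wᗮ / 2)) ≤
      (volume : Measure (W × Wᗮ)).real (B x) := by
    intro x
    rw [measureReal_def, Measure.volume_eq_prod, Measure.prod_prod, ENNReal.toReal_mul,
      ← measureReal_def, ← measureReal_def]
    have c1 := cyl_vol (hu1 x) (a := a₁ - κ) (b := a₁) (by linarith) hβ₁
    have c2 := cyl_vol (hw1 x) (a := a₂ - κ) (b := a₂) (by linarith) hβ₂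
    have e : a₁ - (a₁ - κ) = κ := by ring
    have e' : a₂ - (a₂ - κ) = κ := by ring
    rw [e] at c1
    rw [e'] at c2
    have hv1 : 0 < vb W := vb_pos
    have hv2 : 0 < vb Wᗮ := vb_pos
    exact mul_le_mul c1 c2 (by positivity) measureReal_nonneg
  have hsumm : ∑ x ∈ A, (volume : Measure (W × Wᗮ)).real (B x) * (2 * κ) ≤
      (volume : Measure (W × Wᗮ)).real Z := by
    have hBfin : ∀ x ∈ A, (volume : Measure (W × Wᗮ)) (B x) ≠ ⊤ := fun x hx =>
      ((measure_mono (hBZ x hx)).trans_lt (lt_top_iff_ne_top.2 hZfin)).ne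
    have i1 : ∀ x ∈ A, Integrable ((B x).indicator fun _ : W × Wᗮ => (2 * κ : ℝ)) volume := by
      intro x hx
      exact (integrable_indicator_iff (hBm x)).2 (integrableOn_const (hBfin x hx))
    have i2 : Integrable (Z.indicator fun _ : W × Wᗮ => (1 : ℝ)) volume :=
      (integrable_indicator_iff hZm).2 (integrableOn_const hZfin)
    have h3 : ∀ x ∈ A, (volume : Measure (W × Wᗮ)).real (B x) * (2 * κ) =
        ∫ p, (B x).indicator (fun _ : W × Wᗮ => (2 * κ : ℝ)) p := by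
      intro x hx
      rw [integral_indicator (hBm x), setIntegral_const, smul_eq_mul]
    have h4 : (volume : Measure (W × Wᗮ)).real Z =
        ∫ p, Z.indicator (fun _ : W × Wᗮ => (1 : ℝ)) p := by
      rw [integral_indicator hZm, setIntegral_const, smul_eq_mul, mul_one]
    rw [Finset.sum_congr rfl h3, h4, ← integral_finsetSum _ i1]
    apply integral_mono (integrable_finsetSum _ i1) i2
    intro p
    show ∑ x ∈ A, (B x).indicator (fun _ : W × Wᗮ => (2 * κ : ℝ)) p ≤ _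
    by_cases hp : p ∈ Z
    · rw [Set.indicator_of_mem hp]
      have h5 : ∑ x ∈ A, (B x).indicator (fun _ : W × Wᗮ => (2 * κ : ℝ)) p =
          ((A.filter fun x => p ∈ B x).card : ℝ) * (2 * κ) := by
        simp only [Set.indicator_apply]
        rw [← Finset.sum_filter, Finset.sum_const, nsmul_eq_mul]
      rw [h5]
      exact hmult p
    · rw [Set.indicator_of_notMem hp]
      apply le_of_eq
      apply Finset.sum_eq_zero
      intro x hx
      exact Set.indicator_of_notMem (fun h => hp (hBZ x hx h)) _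
  have hfin : (A.card : ℝ) * (((κ * β₁ ^ (k - 1) * (vb W / 2)) *
      (κ * β₂ ^ (m - 1) * (vb Wᗮ / 2))) * (2 * κ)) ≤ (t₁ ^ k * vb W) * (t₂ ^ m * vb Wᗮ) := by
    rw [← hvZ]
    refine le_trans ?_ hsumm
    rw [← nsmul_eq_mul, ← Finset.sum_const]
    exact Finset.sum_le_sum fun x _ => mul_le_mul_of_nonneg_right (hvB x) (by positivity)
  have hv1 : 0 < vb W := vb_pos
  have hv2 : 0 < vb Wᗮ := vb_pos
  have e : (A.card : ℝ) * (((κ * β₁ ^ (k - 1) * (vb W / 2)) *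
      (κ * β₂ ^ (m - 1) * (vb Wᗮ / 2))) * (2 * κ)) =
      ((A.card : ℝ) * (κ ^ 3 * (β₁ ^ (k - 1) * β₂ ^ (m - 1)))) * (vb W * vb Wᗮ / 2) := by ring
  rw [e] at hfin
  have e2 : (t₁ ^ k * vb W) * (t₂ ^ m * vb Wᗮ) =
      (2 * (t₁ ^ k * t₂ ^ m)) * (vb W * vb Wᗮ / 2) := by ring
  rw [e2] at hfin
  exact le_of_mul_le_mul_right hfin (by positivity)

end count

end Pool.Agent.H976R3.Kiss
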