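import Pool.Agent.H976R3.KissBand

/-! Asymptotic form for subspaces of proportional dimension (MP_b5f63d_co). -/

open Filter
open scoped Topology InnerProductSpace

set_option autoImplicit false

namespace Pool.Agent.H976R3.Kiss

open Pool.Agent.H818R2

lemma arc {a₁ a₂ c₁ c₂ σ₁ σ₂ : ℝ} (hc1 : 0 ≤ c₁) (hc2 : 0 < c₂) (hc : c₁ ^ 2 + c₂ ^ 2 = 1)
    (hs1 : 0 ≤ σ₁) (hs2 : 0 ≤ σ₂) (hs : σ₁ ^ 2 + σ₂ ^ 2 = 1) (hle : σ₂ ≤ c₂) (ha1 : 1 / 2 ≤ a₁)
    (h : a₁ * c₁ + a₂ * c₂ = 1 / 2) : 1 / 2 ≤ a₁ * σ₁ + a₂ * σ₂ := by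
  set θ := σ₂ / c₂ with hθ
  have h0 : 0 ≤ θ := by positivity
  have h1 : θ ≤ 1 := by rw [hθ, div_le_one hc2]; exact hle
  have e : σ₂ = θ * c₂ := by rw [hθ]; field_simp
  have hc11 : c₁ ≤ 1 := by nlinarith
  have h2 : (1 - θ) + θ * c₁ ≤ σ₁ := by
    apply le_of_sq_le_sq _ hs1
    have e1 : σ₁ ^ 2 = 1 - θ ^ 2 * (1 - c₁ ^ 2) := by
      have : σ₁ ^ 2 = 1 - σ₂ ^ 2 := by linarith
      rw [this, e, mul_pow, show c₂ ^ 2 = 1 - c₁ ^ 2 by linarith]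
    rw [e1]
    have h3 : 0 ≤ (1 - θ) * (2 * θ * (1 - c₁)) :=
      mul_nonneg (by linarith) (mul_nonneg (by linarith) (by linarith))
    nlinarith
  have h3 : a₁ * ((1 - θ) + θ * c₁) ≤ a₁ * σ₁ := mul_le_mul_of_nonneg_left h2 (by linarith)
  have h4 : a₁ * ((1 - θ) + θ * c₁) + a₂ * (θ * c₂) = (1 - θ) * a₁ + θ * (a₁ * c₁ + a₂ * c₂) := by
    ring
  have h5 : (1 - θ) * (1 / 2) ≤ (1 - θ) * a₁ := mul_le_mul_of_nonneg_left ha1 (by linarith)
  rw [h] at h4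
  rw [e]
  linarith

/-- One subspace, explicit constants: parameters from a `κ`. -/
lemma band_le {α s p q κ : ℝ} (hα0 : 0 < α) (hα1 : α < 1) (hp : 0 < p) (hq : 0 < q)
    (hpq : p + q = 1 / 2) (hps : p < s) (hqs : q < 1 - s) (hq3 : 3 * (1 - s) ≤ 4 * q)
    (hκ : 0 < κ) (hκ1 : κ ≤ (s - p) / √s) (hκ2 : κ ≤ (1 - s - q) / √(1 - s))
    (hb1 : 0 < (s - p) * p / s - 3 * κ) (hb2 : 0 < (1 - s - q) * q / (1 - s) - 3 * κ)
    {ρ₁ ρ₂ : ℝ} (hρ₁ : ρ₁ = (s - p - 3 * κ) / ((s - p) * p / s - 3 * κ))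
    (hρ₂ : ρ₂ = (1 - s - q - 3 * κ) / ((1 - s - q) * q / (1 - s) - 3 * κ)) (hρ : ρ₂ ≤ ρ₁)
    (n : ℕ) [NeZero n] (X) (hX : IsSphCode n (Real.pi / 3) X)
    (W : Submodule ℝ (EuclideanSpace ℝ (Fin n))) (hW : (Module.finrank ℝ W : ℝ) ≤ α * n)
    (A) (hAX : A ⊆ X) (hA : ∀ x ∈ A, s ≤ sqProj W x) :
    (A.card : ℝ) * κ ^ 3 ≤ 2 * (Real.exp (n * ((α * Real.log ρ₁ + (1 - α) * Real.log ρ₂) / 2 -
      Real.log (4 / 3) / 2)) * kissing n) := by
  rcases A.eq_empty_or_nonempty with rfl | hne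
  · simp only [Finset.card_empty, Nat.cast_zero, zero_mul]
    positivity
  have hs0 : 0 < s := hp.trans hps
  have hs1 : 0 < 1 - s := hq.trans hqs
  have hn0 : (0 : ℝ) < n := by exact_mod_cast Nat.pos_of_ne_zero (NeZero.ne n)
  set k := Module.finrank ℝ W with hk
  set m := Module.finrank ℝ Wᗮ with hm
  have hfr : k + m = n := by
    have := W.finrank_add_finrank_orthogonal
    rwa [finrank_euclideanSpace_fin] at this
  have hkn : (k : ℝ) < n := by nlinarith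
  have hkn' : k < n := by exact_mod_cast hkn
  have hm0 : 0 < m := by omega
  have hk0 : 0 < k := by
    obtain ⟨x, hx⟩ := hne
    have h1 := hA x hx
    by_contra h0
    have h2 : W = ⊥ := Submodule.finrank_eq_zero.1 (by omega)
    have h3 : sqProj W x = 0 := by
      unfold sqProj
      have h4 : W.orthogonalProjectionOnto x = 0 := by
        have h5 := (W.orthogonalProjectionOnto x).2
        apply Subtype.ext
        simp [h2]
      rw [h4]; simp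
    linarith
  have hsep : ∀ x ∈ A, ∀ y ∈ A, x ≠ y → 1 ≤ ‖x - y‖ ^ 2 := by
    intro x hx y hy hxy
    have h2 := hX.2 x (hAX hx) y (hAX hy) hxy
    rw [Real.cos_pi_div_three] at h2
    rw [norm_sub_sq_real, hX.1 x (hAX hx), hX.1 y (hAX hy)]
    linarith
  -- parameters
  set c₁ := √s with hc1
  set c₂ := √(1 - s) with hc2
  have hc1s : c₁ ^ 2 = s := Real.sq_sqrt hs0.le
  have hc2s : c₂ ^ 2 = 1 - s := Real.sq_sqrt hs1.le
  have hc1p : 0 < c₁ := Real.sqrt_pos.2 hs0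
  have hc2p : 0 < c₂ := Real.sqrt_pos.2 hs1
  set a₁ := (s - p) / c₁ with ha1
  set a₂ := (1 - s - q) / c₂ with ha2
  have ha1c : a₁ * c₁ = s - p := by rw [ha1]; field_simp
  have ha2c : a₂ * c₂ = 1 - s - q := by rw [ha2]; field_simp
  have ha1s : a₁ ^ 2 = (s - p) ^ 2 / s := by rw [ha1, div_pow, hc1s]
  have ha2s : a₂ ^ 2 = (1 - s - q) ^ 2 / (1 - s) := by rw [ha2, div_pow, hc2s]
  have ha12 : 1 / 2 ≤ a₁ := by
    rw [ha1, le_div_iff₀ hc1p]
    have h1 := sq_nonneg (1 - c₁)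
    have h2 : (1 - c₁) ^ 2 = 1 - 2 * c₁ + s := by rw [← hc1s]; ring
    rw [h2] at h1
    linarith
  set b₁ := (s - p) * p / s - 3 * κ with hb1d
  set b₂ := (1 - s - q) * q / (1 - s) - 3 * κ with hb2d
  set T₁ := s - p - 3 * κ with hT1
  set T₂ := 1 - s - q - 3 * κ with hT2
  have e1 : a₁ ^ 2 + b₁ = T₁ := by
    rw [ha1s, hb1d, hT1]; field_simp; ring
  have e2 : a₂ ^ 2 + b₂ = T₂ := by
    rw [ha2s, hb2d, hT2]; field_simp; ring
  have hT1b : b₁ ≤ T₁ := by have := sq_nonneg a₁; linarith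
  have hT2b : b₂ ≤ T₂ := by have := sq_nonneg a₂; linarith
  have hT1p : 0 < T₁ := hb1.trans_le hT1b
  have hT2p : 0 < T₂ := hb2.trans_le hT2b
  have hT11 : T₁ ≤ 1 := by rw [hT1]; linarith
  have hT21 : T₂ ≤ 1 := by rw [hT2]; linarith
  have hc := count2 (A := A) (a₁ := a₁) (a₂ := a₂) (β₁ := √b₁) (β₂ := √b₂) (t₁ := √T₁)
    (t₂ := √T₂) (κ := κ) W hk0 hm0 hsep (fun x hx => hX.1 x (hAX hx)) hκ hκ1 hκ2
    (Real.sqrt_nonneg _) (Real.sqrt_nonneg _) (Real.sqrt_nonneg _) (Real.sqrt_nonneg _)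
    (by rw [Real.sq_sqrt hb1.le, Real.sq_sqrt hT1p.le, e1])
    (by rw [Real.sq_sqrt hb2.le, Real.sq_sqrt hT2p.le, e2])
    (by rw [Real.sq_sqrt hT1p.le, Real.sq_sqrt hT2p.le, hT1, hT2]; linarith)
    (fun x hx => by
      have h3 := W.norm_sq_eq_add_norm_sq_projection x
      rw [hX.1 x (hAX hx)] at h3
      have h4 : s ≤ ‖W.orthogonalProjectionOnto x‖ ^ 2 := hA x hx
      apply arc hc1p.le hc2p (by rw [hc1s, hc2s]; ring) (norm_nonneg _) (norm_nonneg _)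
        (by linarith) _ ha12 (by rw [ha1c, ha2c]; linarith)
      apply le_of_sq_le_sq _ hc2p.le
      rw [hc2s]
      linarith)
  rw [← hk, ← hm] at hc
  have hρ1 : ρ₁ = T₁ / b₁ := hρ₁
  have hρ2 : ρ₂ = T₂ / b₂ := hρ₂
  have hr1 : 1 ≤ ρ₁ := by rw [hρ1, le_div_iff₀ hb1]; linarith
  have hr2 : 1 ≤ ρ₂ := by rw [hρ2, le_div_iff₀ hb2]; linarith
  set r₁ := √ρ₁ with hr1d
  set r₂ := √ρ₂ with hr2d
  have hr11 : 1 ≤ r₁ := Real.one_le_sqrt.2 hr1
  have hr21 : 1 ≤ r₂ := Real.one_le_sqrt.2 hr2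
  have f1 : √T₁ = r₁ * √b₁ := by
    rw [hr1d, ← Real.sqrt_mul (by linarith), hρ1, div_mul_cancel₀ _ hb1.ne']
  have f2 : √T₂ = r₂ * √b₂ := by
    rw [hr2d, ← Real.sqrt_mul (by linarith), hρ2, div_mul_cancel₀ _ hb2.ne']
  obtain ⟨k', hk'⟩ : ∃ k', k = k' + 1 := ⟨k - 1, by omega⟩
  obtain ⟨m', hm'⟩ : ∃ m', m = m' + 1 := ⟨m - 1, by omega⟩
  rw [hm', hk', Nat.add_sub_cancel, Nat.add_sub_cancel] at hc
  rw [hm', hk'] at hfr
  have hsT1 : √T₁ ≤ 1 := Real.sqrt_le_one.2 hT11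
  have hsT2 : √T₂ ≤ 1 := Real.sqrt_le_one.2 hT21
  have g1 : √T₁ ^ (k' + 1) ≤ r₁ ^ k' * √b₁ ^ k' := by
    rw [pow_succ, ← mul_pow, ← f1]
    exact mul_le_of_le_one_right (by positivity) hsT1
  have g2 : √T₂ ^ (m' + 1) ≤ r₂ ^ m' * √b₂ ^ m' := by
    rw [pow_succ, ← mul_pow, ← f2]
    exact mul_le_of_le_one_right (by positivity) hsT2
  have hsb1 : 0 < √b₁ := Real.sqrt_pos.2 hb1
  have hsb2 : 0 < √b₂ := Real.sqrt_pos.2 hb2
  have h5 : ((A.card : ℝ) * κ ^ 3) * (√b₁ ^ k' * √b₂ ^ m') ≤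
      (2 * (r₁ ^ k' * r₂ ^ m')) * (√b₁ ^ k' * √b₂ ^ m') := by
    calc ((A.card : ℝ) * κ ^ 3) * (√b₁ ^ k' * √b₂ ^ m')
        = (A.card : ℝ) * (κ ^ 3 * (√b₁ ^ k' * √b₂ ^ m')) := by ring
      _ ≤ 2 * (√T₁ ^ (k' + 1) * √T₂ ^ (m' + 1)) := hc
      _ ≤ 2 * ((r₁ ^ k' * √b₁ ^ k') * (r₂ ^ m' * √b₂ ^ m')) :=
          mul_le_mul_of_nonneg_left (mul_le_mul g1 g2 (by positivity) (by positivity)) (by norm_num)
      _ = _ := by ring
  have h6 := le_of_mul_le_mul_right h5 (by positivity)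
  have x1 : r₁ ^ k' = Real.exp (k' * (Real.log ρ₁ / 2)) := by
    rw [Real.exp_nat_mul, ← Real.log_sqrt (by linarith), ← hr1d, Real.exp_log (by linarith)]
  have x2 : r₂ ^ m' = Real.exp (m' * (Real.log ρ₂ / 2)) := by
    rw [Real.exp_nat_mul, ← Real.log_sqrt (by linarith), ← hr2d, Real.exp_log (by linarith)]
  have x3 : (√3 / 2) ^ n = Real.exp (n * (-(Real.log (4 / 3) / 2))) := by
    have h8 : √3 / 2 = √(3 / 4) := by
      rw [show (3 / 4 : ℝ) = 3 / 2 ^ 2 by norm_num, Real.sqrt_div (by norm_num),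
        Real.sqrt_sq (by norm_num)]
    have h9 : -(Real.log (4 / 3) / 2) = Real.log (√3 / 2) := by
      rw [h8, Real.log_sqrt (by norm_num), show (3 / 4 : ℝ) = (4 / 3)⁻¹ by norm_num, Real.log_inv]
      ring
    rw [Real.exp_nat_mul, h9, Real.exp_log (by positivity)]
  have hw := Pool.Agent.H161R2.KissSym.wyner n
  rw [x3] at hw
  rw [x1, x2, ← Real.exp_add] at h6
  have hl2 : 0 ≤ Real.log ρ₂ := Real.log_nonneg hr2
  have hl12 : Real.log ρ₂ ≤ Real.log ρ₁ := Real.log_le_log (by linarith) hρ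
  have hkα : (k' : ℝ) ≤ α * n := by
    have h7 : ((k' + 1 : ℕ) : ℝ) ≤ α * n := by rw [← hk']; exact hW
    push_cast at h7
    linarith
  have hkm : (k' : ℝ) + m' ≤ n := by
    have h7 : k' + m' ≤ n := by omega
    exact_mod_cast h7
  have h7 : (k' : ℝ) * (Real.log ρ₁ / 2) + m' * (Real.log ρ₂ / 2) ≤
      n * ((α * Real.log ρ₁ + (1 - α) * Real.log ρ₂) / 2) := by
    have y1 : 0 ≤ (α * n - k') * (Real.log ρ₁ - Real.log ρ₂) :=
      mul_nonneg (by linarith) (by linarith)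
    have y2 : 0 ≤ (n - k' - m') * Real.log ρ₂ := mul_nonneg (by linarith) hl2
    have y3 : n * ((α * Real.log ρ₁ + (1 - α) * Real.log ρ₂) / 2) -
        ((k' : ℝ) * (Real.log ρ₁ / 2) + m' * (Real.log ρ₂ / 2)) =
        ((α * n - k') * (Real.log ρ₁ - Real.log ρ₂) + (n - k' - m') * Real.log ρ₂) / 2 := by ring
    linarith only [y1, y2, y3]
  calc (A.card : ℝ) * κ ^ 3
      ≤ 2 * Real.exp ((k' : ℝ) * (Real.log ρ₁ / 2) + m' * (Real.log ρ₂ / 2)) := h6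
    _ ≤ 2 * Real.exp (n * ((α * Real.log ρ₁ + (1 - α) * Real.log ρ₂) / 2)) :=
        mul_le_mul_of_nonneg_left (Real.exp_le_exp.2 h7) (by norm_num)
    _ = (2 * Real.exp (n * ((α * Real.log ρ₁ + (1 - α) * Real.log ρ₂) / 2))) * 1 := by ring
    _ ≤ (2 * Real.exp (n * ((α * Real.log ρ₁ + (1 - α) * Real.log ρ₂) / 2))) *
        ((kissing n : ℝ) * Real.exp (n * (-(Real.log (4 / 3) / 2)))) :=
        mul_le_mul_of_nonneg_left hw (by positivity)
    _ = 2 * ((Real.exp (n * ((α * Real.log ρ₁ + (1 - α) * Real.log ρ₂) / 2)) *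
        Real.exp (n * (-(Real.log (4 / 3) / 2)))) * kissing n) := by ring
    _ = _ := by
        rw [← Real.exp_add]
        congr 3
        ring_nf

/-- Asymptotic form for one subspace. -/
theorem band {α s p : ℝ} (hα0 : 0 < α) (hα1 : α < 1) (hp : 0 < p) (hps : p < s)
    (hq0 : p < 1 / 2) (hqs : 1 / 2 - p < 1 - s) (hr : (1 - s) / (1 / 2 - p) < s / p)
    (hF : (s / p) ^ α * ((1 - s) / (1 / 2 - p)) ^ (1 - α) < 4 / 3) :
    ∃ ε : ℝ, 0 < ε ∧ ∀ᶠ n : ℕ in atTop, ∀ X, IsSphCode n (Real.pi / 3) X →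
      ∀ W : Submodule ℝ (EuclideanSpace ℝ (Fin n)), (Module.finrank ℝ W : ℝ) ≤ α * n →
      ∀ A ⊆ X, (∀ x ∈ A, s ≤ sqProj W x) → (A.card : ℝ) ≤ (2 : ℝ) ^ (-ε * n) * kissing n := by
  obtain ⟨q, hqd⟩ : ∃ q, q = 1 / 2 - p := ⟨_, rfl⟩
  rw [← hqd] at hqs hr hF
  have hpq : p + q = 1 / 2 := by linarith
  have hq : 0 < q := by linarith
  have hs0 : 0 < s := hp.trans hps
  have hs1 : 0 < 1 - s := hq.trans hqs
  have hu : 0 < s / p := by positivity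
  have hv : 0 < (1 - s) / q := by positivity
  have hlog : α * Real.log (s / p) + (1 - α) * Real.log ((1 - s) / q) < Real.log (4 / 3) := by
    have h1 := Real.log_lt_log (by positivity) hF
    rwa [Real.log_mul (by positivity) (by positivity), Real.log_rpow hu, Real.log_rpow hv] at h1
  have hq3 : 3 * (1 - s) ≤ 4 * q := by
    have h1 := Real.log_lt_log hv hr
    have h2 : Real.log ((1 - s) / q) < Real.log (4 / 3) := by nlinarith
    have h3 := (Real.log_lt_log_iff hv (by norm_num)).1 h2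
    rw [div_lt_iff₀ hq] at h3
    linarith
  -- the functions of `κ`
  let R₁ : ℝ → ℝ := fun κ => (s - p - 3 * κ) / ((s - p) * p / s - 3 * κ)
  let R₂ : ℝ → ℝ := fun κ => (1 - s - q - 3 * κ) / ((1 - s - q) * q / (1 - s) - 3 * κ)
  have hB1 : 0 < (s - p) * p / s := div_pos (mul_pos (by linarith) hp) hs0
  have hB2 : 0 < (1 - s - q) * q / (1 - s) := div_pos (mul_pos (by linarith) hq) hs1
  have c1 : ContinuousAt R₁ 0 := by
    apply ContinuousAt.div (by fun_prop) (by fun_prop)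
    simpa using hB1.ne'
  have c2 : ContinuousAt R₂ 0 := by
    apply ContinuousAt.div (by fun_prop) (by fun_prop)
    simpa using hB2.ne'
  have v1 : R₁ 0 = s / p := by
    have : s - p ≠ 0 := by linarith
    simp only [R₁, mul_zero, sub_zero]
    field_simp
  have v2 : R₂ 0 = (1 - s) / q := by
    have : 1 - s - q ≠ 0 := by linarith
    simp only [R₂, mul_zero, sub_zero]
    field_simp
  have l1 : ContinuousAt (fun κ => Real.log (R₁ κ)) 0 := c1.log (by rw [v1]; exact hu.ne')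
  have l2 : ContinuousAt (fun κ => Real.log (R₂ κ)) 0 := c2.log (by rw [v2]; exact hv.ne')
  have l3 : ContinuousAt (fun κ => α * Real.log (R₁ κ) + (1 - α) * Real.log (R₂ κ)) 0 :=
    (continuousAt_const.mul l1).add (continuousAt_const.mul l2)
  have w1 : ∀ᶠ κ in 𝓝 (0 : ℝ), α * Real.log (R₁ κ) + (1 - α) * Real.log (R₂ κ) <
      Real.log (4 / 3) := by
    apply l3.eventually_lt continuousAt_const
    rw [v1, v2]
    exact hlog
  have w2 : ∀ᶠ κ in 𝓝 (0 : ℝ), R₂ κ < R₁ κ := by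
    apply c2.eventually_lt c1
    rw [v1, v2]
    exact hr
  have small : ∀ c : ℝ, 0 < c → ∀ᶠ κ in 𝓝 (0 : ℝ), 3 * κ < c := by
    intro c hc
    have h1 : ContinuousAt (fun κ : ℝ => 3 * κ) 0 := by fun_prop
    apply h1.eventually_lt continuousAt_const
    simpa using hc
  have hev : ∀ᶠ κ in 𝓝[>] (0 : ℝ), 0 < κ ∧
      (α * Real.log (R₁ κ) + (1 - α) * Real.log (R₂ κ) < Real.log (4 / 3)) ∧ R₂ κ < R₁ κ ∧
      3 * κ < (s - p) / √s ∧ 3 * κ < (1 - s - q) / √(1 - s) ∧ 3 * κ < (s - p) * p / s ∧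
      3 * κ < (1 - s - q) * q / (1 - s) := by
    have p1 : 0 < (s - p) / √s := div_pos (by linarith) (Real.sqrt_pos.2 hs0)
    have p2 : 0 < (1 - s - q) / √(1 - s) := div_pos (by linarith) (Real.sqrt_pos.2 hs1)
    filter_upwards [self_mem_nhdsWithin, nhdsWithin_le_nhds w1, nhdsWithin_le_nhds w2,
      nhdsWithin_le_nhds (small _ p1), nhdsWithin_le_nhds (small _ p2),
      nhdsWithin_le_nhds (small _ hB1), nhdsWithin_le_nhds (small _ hB2)]
      with κ k1 k2 k3 k4 k5 k6 k7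
    exact ⟨k1, k2, k3, k4, k5, k6, k7⟩
  obtain ⟨κ, hκ, k2, k3, k4, k5, k6, k7⟩ := hev.exists
  obtain ⟨Λ, hΛ⟩ : ∃ Λ, Λ = (α * Real.log (R₁ κ) + (1 - α) * Real.log (R₂ κ)) / 2 -
      Real.log (4 / 3) / 2 := ⟨_, rfl⟩
  have hΛ0 : Λ < 0 := by rw [hΛ]; linarith
  have hl2 : 0 < Real.log 2 := Real.log_pos (by norm_num)
  refine ⟨-Λ / (2 * Real.log 2), div_pos (by linarith) (by positivity), ?_⟩
  have hev2 : ∀ᶠ n : ℕ in atTop, Real.log (2 / κ ^ 3) ≤ n * (-Λ / 2) := by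
    have ht : Tendsto (fun n : ℕ => (n : ℝ) * (-Λ / 2)) atTop atTop :=
      tendsto_natCast_atTop_atTop.atTop_mul_const (by linarith)
    exact ht.eventually_ge_atTop _
  filter_upwards [hev2, eventually_gt_atTop 0] with n hn hn0 X hX W hW A hAX hA
  have : NeZero n := ⟨by omega⟩
  have hκ3 : 0 < κ ^ 3 := by positivity
  have h1 := band_le hα0 hα1 hp hq hpq hps hqs hq3 hκ (by linarith) (by linarith)
    (by linarith) (by linarith) (ρ₁ := R₁ κ) (ρ₂ := R₂ κ) rfl rfl k3.le n X hX W hW A hAX hA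
  rw [← hΛ] at h1
  have h2 : (A.card : ℝ) ≤ 2 / κ ^ 3 * Real.exp (n * Λ) * kissing n := by
    rw [mul_assoc, div_mul_eq_mul_div, le_div_iff₀ hκ3]
    exact h1
  apply h2.trans
  apply mul_le_mul_of_nonneg_right _ (Nat.cast_nonneg _)
  have h3 : 2 / κ ^ 3 ≤ Real.exp (n * (-Λ / 2)) := by
    rw [← Real.log_le_iff_le_exp (by positivity)]
    exact hn
  calc 2 / κ ^ 3 * Real.exp (n * Λ) ≤ Real.exp (n * (-Λ / 2)) * Real.exp (n * Λ) :=
        mul_le_mul_of_nonneg_right h3 (Real.exp_pos _).le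
    _ = (2 : ℝ) ^ (-(-Λ / (2 * Real.log 2)) * n) := by
        rw [← Real.exp_add, Real.rpow_def_of_pos (by norm_num)]
        congr 1
        field_simp
        ring

end Pool.Agent.H976R3.Kiss
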