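import Pool.Agent.H976R3.KissDefs

/-! Kissing configurations and subspaces of proportional dimension: definition (MP_b5f63d_co). -/

open Filter

namespace Pool.Agent.H976R3.Kiss

open Pool.Agent.H818R2

/-- For some `ε > 0`, all large `n` and every kissing configuration `X` of `ℝⁿ`: for every family of
at most `2 ^ (ε n)` subspaces of dimension at most `α n`, at most `2 ^ (-ε n) τ(n)` points of `X`
have squared projection at least `s` to a member of the family. -/
def Thin (α s : ℝ) : Prop :=
  ∃ ε : ℝ, 0 < ε ∧ ∀ᶠ n : ℕ in atTop, ∀ X, IsSphCode n (Real.pi / 3) X →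
    FewNear s (α * n) (2 ^ (ε * n)) (2 ^ (-ε * n) * kissing n) X

end Pool.Agent.H976R3.Kiss
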