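import Pool.Agent.H976R3.KissBand2
import Pool.Agent.H976R3.KissThinDefs

/-! Kissing configurations and subspaces of proportional dimension (MP_b5f63d_co). -/

open Filter
open scoped Topology InnerProductSpace

set_option autoImplicit false

namespace Pool.Agent.H976R3.Kiss

open Pool.Agent.H818R2

theorem thin_of {α s p : ℝ} (hα0 : 0 < α) (hα1 : α < 1) (hp : 0 < p) (hps : p < s)
    (hq0 : p < 1 / 2) (hqs : 1 / 2 - p < 1 - s) (hr : (1 - s) / (1 / 2 - p) < s / p)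
    (hF : (s / p) ^ α * ((1 - s) / (1 / 2 - p)) ^ (1 - α) < 4 / 3) : Thin α s := by
  classical
  obtain ⟨ε₀, hε₀, H⟩ := band hα0 hα1 hp hps hq0 hqs hr hF
  refine ⟨ε₀ / 2, by positivity, ?_⟩
  filter_upwards [H] with n Hn X hX 𝒲 h𝒲 hdim A hAX hA
  have hpw : (2 : ℝ) ^ (ε₀ / 2 * n) * (2 : ℝ) ^ (-ε₀ * n) = (2 : ℝ) ^ (-(ε₀ / 2) * n) := by
    rw [← Real.rpow_add two_pos]
    congr 1
    ring
  have hsub : A ⊆ 𝒲.biUnion fun W => A.filter fun x => s ≤ sqProj W x := by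
    intro x hx
    obtain ⟨W, hW, hxW⟩ := hA x hx
    exact Finset.mem_biUnion.2 ⟨W, hW, Finset.mem_filter.2 ⟨hx, hxW⟩⟩
  have h1 : (A.card : ℝ) ≤ ∑ W ∈ 𝒲, ((A.filter fun x => s ≤ sqProj W x).card : ℝ) := by
    exact_mod_cast (Finset.card_le_card hsub).trans Finset.card_biUnion_le
  calc (A.card : ℝ) ≤ _ := h1
    _ ≤ ∑ _W ∈ 𝒲, (2 : ℝ) ^ (-ε₀ * n) * kissing n := by
        apply Finset.sum_le_sum
        intro W hW
        exact Hn X hX W (hdim W hW) _
          ((Finset.filter_subset _ _).trans hAX) fun x hx => (Finset.mem_filter.1 hx).2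
    _ = 𝒲.card * ((2 : ℝ) ^ (-ε₀ * n) * kissing n) := by
        rw [Finset.sum_const, nsmul_eq_mul]
    _ ≤ (2 : ℝ) ^ (ε₀ / 2 * n) * ((2 : ℝ) ^ (-ε₀ * n) * kissing n) :=
        mul_le_mul_of_nonneg_right h𝒲 (by positivity)
    _ = _ := by rw [← mul_assoc, hpw]

/-- entropy form -/
theorem thin_entropy {α s : ℝ} (hα0 : 0 < α) (hαs : α < s) (hs : s < (1 + α) / 2)
    (hF : (s / α) ^ α * ((1 - s) / (1 - α)) ^ (1 - α) < 2 / 3) : Thin α s := by
  have hα1 : α < 1 := by linarith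
  have h1α : 0 < 1 - α := by linarith
  have h1s : 0 < 1 - s := by linarith
  have hs0 : 0 < s := by linarith
  apply thin_of (p := α / 2) hα0 hα1 (by positivity) (by linarith) (by linarith) (by linarith)
  · rw [div_lt_div_iff₀ (by linarith) (by positivity)]
    nlinarith
  · have e1 : s / (α / 2) = 2 * (s / α) := by field_simp
    have e2 : (1 - s) / (1 / 2 - α / 2) = 2 * ((1 - s) / (1 - α)) := by
      rw [show (1 : ℝ) / 2 - α / 2 = (1 - α) / 2 by ring]
      field_simp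
    rw [e1, e2, Real.mul_rpow two_pos.le (by positivity), Real.mul_rpow two_pos.le (by positivity)]
    have e3 : (2 : ℝ) ^ α * (2 : ℝ) ^ (1 - α) = 2 := by
      rw [← Real.rpow_add two_pos]; simp
    calc (2 : ℝ) ^ α * (s / α) ^ α * (2 ^ (1 - α) * ((1 - s) / (1 - α)) ^ (1 - α))
        = (2 ^ α * 2 ^ (1 - α)) * ((s / α) ^ α * ((1 - s) / (1 - α)) ^ (1 - α)) := by ring
      _ = 2 * ((s / α) ^ α * ((1 - s) / (1 - α)) ^ (1 - α)) := by rw [e3]
      _ < 4 / 3 := by linarith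

/-- second form -/
theorem thin_large {α s : ℝ} (hα0 : 0 < α) (hα1 : α < 1) (hs : 1 / 2 < s) (hs1 : s < 1)
    (hF : (2 * s / (2 * s - 1)) ^ α < 4 / 3) : Thin α s := by
  have e0 : s / (s - 1 / 2 + 0) = 2 * s / (2 * s - 1) := by
    have : 2 * s - 1 ≠ 0 := by linarith
    have h2 : s - 1 / 2 + 0 ≠ 0 := by linarith
    rw [div_eq_div_iff h2 this]
    ring
  have e1 : (1 - s) / (1 / 2 - (s - 1 / 2 + 0)) = 1 := by
    rw [div_eq_one_iff_eq (by linarith)]
    ring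
  have hpos : 0 < 2 * s / (2 * s - 1) := div_pos (by linarith) (by linarith)
  have hone : 1 < 2 * s / (2 * s - 1) := by rw [lt_div_iff₀ (by linarith)]; linarith
  have c1 : ContinuousAt (fun τ : ℝ => s / (s - 1 / 2 + τ)) 0 := by
    apply ContinuousAt.div (by fun_prop) (by fun_prop)
    linarith
  have c2 : ContinuousAt (fun τ : ℝ => (1 - s) / (1 / 2 - (s - 1 / 2 + τ))) 0 := by
    apply ContinuousAt.div (by fun_prop) (by fun_prop)
    linarith
  have c3 : ContinuousAt (fun τ : ℝ => (s / (s - 1 / 2 + τ)) ^ α *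
      ((1 - s) / (1 / 2 - (s - 1 / 2 + τ))) ^ (1 - α)) 0 := by
    apply ContinuousAt.mul
    · exact c1.rpow_const (Or.inl (by rw [e0]; exact hpos.ne'))
    · exact c2.rpow_const (Or.inl (by rw [e1]; exact one_ne_zero))
  have w1 : ∀ᶠ τ in 𝓝 (0 : ℝ), (s / (s - 1 / 2 + τ)) ^ α *
      ((1 - s) / (1 / 2 - (s - 1 / 2 + τ))) ^ (1 - α) < 4 / 3 := by
    apply c3.eventually_lt continuousAt_const
    rw [e0, e1, Real.one_rpow, mul_one]
    exact hF
  have w2 : ∀ᶠ τ in 𝓝 (0 : ℝ), (1 - s) / (1 / 2 - (s - 1 / 2 + τ)) < s / (s - 1 / 2 + τ) := by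
    apply c2.eventually_lt c1
    rw [e0, e1]
    exact hone
  have w3 : ∀ᶠ τ in 𝓝 (0 : ℝ), τ < 1 - s := eventually_lt_nhds (by linarith)
  have w4 : ∀ᶠ τ in 𝓝 (0 : ℝ), τ < 1 / 2 := eventually_lt_nhds (by norm_num)
  have hev : ∀ᶠ τ in 𝓝[>] (0 : ℝ), 0 < τ ∧ ((s / (s - 1 / 2 + τ)) ^ α *
      ((1 - s) / (1 / 2 - (s - 1 / 2 + τ))) ^ (1 - α) < 4 / 3) ∧
      ((1 - s) / (1 / 2 - (s - 1 / 2 + τ)) < s / (s - 1 / 2 + τ)) ∧ τ < 1 - s ∧ τ < 1 / 2 := by
    filter_upwards [self_mem_nhdsWithin, nhdsWithin_le_nhds w1, nhdsWithin_le_nhds w2,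
      nhdsWithin_le_nhds w3, nhdsWithin_le_nhds w4] with τ k1 k2 k3 k4 k5
    exact ⟨k1, k2, k3, k4, k5⟩
  obtain ⟨τ, k1, k2, k3, k4, k5⟩ := hev.exists
  exact thin_of (p := s - 1 / 2 + τ) hα0 hα1 (by linarith) (by linarith) (by linarith)
    (by linarith) k3 k2

theorem thin_a : Thin (1 / 100) (37 / 100) := by
  apply thin_entropy (by norm_num) (by norm_num) (by norm_num)
  apply lt_of_pow_lt_pow_left₀ 100 (by norm_num)
  rw [mul_pow, ← Real.rpow_natCast, ← Real.rpow_mul (by norm_num), ← Real.rpow_natCast (_ ^ _) 100,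
    ← Real.rpow_mul (by norm_num)]
  norm_num

theorem thin_b : Thin (1 / 10) (53 / 100) := by
  apply thin_entropy (by norm_num) (by norm_num) (by norm_num)
  apply lt_of_pow_lt_pow_left₀ 10 (by norm_num)
  rw [mul_pow, ← Real.rpow_natCast, ← Real.rpow_mul (by norm_num), ← Real.rpow_natCast (_ ^ _) 10,
    ← Real.rpow_mul (by norm_num)]
  norm_num

theorem thin_c : Thin (1 / 5) (2 / 3) := by
  apply thin_large (by norm_num) (by norm_num) (by norm_num) (by norm_num)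
  apply lt_of_pow_lt_pow_left₀ 5 (by norm_num)
  rw [← Real.rpow_natCast, ← Real.rpow_mul (by norm_num)]
  norm_num

theorem thin_d : Thin (2 / 5) (49 / 50) := by
  apply thin_large (by norm_num) (by norm_num) (by norm_num) (by norm_num)
  apply lt_of_pow_lt_pow_left₀ 5 (by norm_num)
  rw [← Real.rpow_natCast, ← Real.rpow_mul (by norm_num)]
  norm_num

end Pool.Agent.H976R3.Kiss
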