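import Pool.Agent.H976R3.KissAsym

/-! Families of subspaces and sparse points (MP_b5f63d_co). -/

open Filter
open scoped InnerProductSpace

set_option autoImplicit false

namespace Pool.Agent.H976R3.Kiss

open Pool.Agent.H818R2

/-- the number of small subsets of `Fin n` -/
lemma card_small {n : ℕ} {δ ε x : ℝ} (hx0 : 0 < x) (hx1 : x ≤ 1)
    (hxε : x ≤ ε * Real.log 2 / 2) (hδε : δ * Real.log (1 / x) ≤ ε * Real.log 2 / 2)
    (𝒮 : Finset (Finset (Fin n))) (h𝒮 : ∀ S ∈ 𝒮, (S.card : ℝ) ≤ δ * n) :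
    (𝒮.card : ℝ) ≤ (2 : ℝ) ^ (ε * n) := by
  have h1 : (𝒮.card : ℝ) * x ^ (δ * n) ≤ (1 + x) ^ n := by
    calc (𝒮.card : ℝ) * x ^ (δ * n) = ∑ _S ∈ 𝒮, x ^ (δ * n) := by
          rw [Finset.sum_const, nsmul_eq_mul]
      _ ≤ ∑ S ∈ 𝒮, x ^ S.card := by
          apply Finset.sum_le_sum
          intro S hS
          rw [← Real.rpow_natCast]
          exact Real.rpow_le_rpow_of_exponent_ge hx0 hx1 (h𝒮 S hS)
      _ ≤ ∑ S ∈ (Finset.univ : Finset (Fin n)).powerset, x ^ S.card :=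
          Finset.sum_le_sum_of_subset_of_nonneg (fun S _ => by simp)
            fun _ _ _ => by positivity
      _ = (1 + x) ^ n := by
          have := Finset.sum_pow_mul_eq_add_pow x 1 (Finset.univ : Finset (Fin n))
          simp only [one_pow, mul_one, Finset.card_univ, Fintype.card_fin] at this
          rw [this, add_comm]
  have hp : (0 : ℝ) < x ^ (δ * n) := Real.rpow_pos_of_pos hx0 _
  rw [← le_div_iff₀ hp] at h1
  apply h1.trans
  rw [div_le_iff₀ hp]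
  have e1 : (1 + x) ^ n ≤ Real.exp (n * x) := by
    rw [Real.exp_nat_mul]
    apply pow_le_pow_left₀ (by linarith)
    rw [add_comm]
    exact Real.add_one_le_exp x
  apply e1.trans
  rw [Real.rpow_def_of_pos two_pos, Real.rpow_def_of_pos hx0, ← Real.exp_add]
  apply Real.exp_le_exp.2
  have hn : (0 : ℝ) ≤ n := Nat.cast_nonneg n
  have e2 : Real.log (1 / x) = -Real.log x := by rw [one_div, Real.log_inv]
  rw [e2] at hδε
  have h3 := mul_le_mul_of_nonneg_left hxε hn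
  have h4 := mul_le_mul_of_nonneg_left hδε hn
  nlinarith

/-- Bessel's inequality for the span of a part of an orthonormal basis. -/
lemma sum_le_proj {n : ℕ} (b : OrthonormalBasis (Fin n) ℝ (EuclideanSpace ℝ (Fin n)))
    (S : Finset (Fin n)) (x : EuclideanSpace ℝ (Fin n)) :
    ∑ i ∈ S, ⟪b i, x⟫_ℝ ^ 2 ≤
      ‖(Submodule.span ℝ (b '' S)).orthogonalProjectionOnto x‖ ^ 2 := by
  set W := Submodule.span ℝ (b '' (S : Set (Fin n))) with hW
  have h1 := b.orthonormal.sum_inner_products_le (s := S)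
    ((W.orthogonalProjectionOnto x : W) : EuclideanSpace ℝ (Fin n))
  have h2 : ∀ i ∈ S, ⟪b i, x⟫_ℝ ^ 2 =
      ‖⟪b i, ((W.orthogonalProjectionOnto x : W) : EuclideanSpace ℝ (Fin n))⟫_ℝ‖ ^ 2 := by
    intro i hi
    have hb : b i ∈ W := Submodule.subset_span (Set.mem_image_of_mem _ hi)
    have h3 : ⟪b i, x - ((W.orthogonalProjectionOnto x : W) : EuclideanSpace ℝ (Fin n))⟫_ℝ = 0 :=
      Submodule.inner_right_of_mem_orthogonal hb (Submodule.sub_starProjection_mem_orthogonal x)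
    rw [inner_sub_right, sub_eq_zero] at h3
    rw [h3, Real.norm_eq_abs, sq_abs]
  rw [Finset.sum_congr rfl h2]
  exact h1

theorem fam_asym {η : ℝ} (hη : 0 < η) : ∃ δ ε : ℝ, 0 < δ ∧ 0 < ε ∧ ∀ᶠ n : ℕ in atTop,
    ∀ X, IsSphCode n (Real.pi / 3) X →
      (∀ 𝒲 : Finset (Submodule ℝ (EuclideanSpace ℝ (Fin n))), (𝒲.card : ℝ) ≤ (2 : ℝ) ^ (ε * n) →
        (∀ W ∈ 𝒲, (Module.finrank ℝ W : ℝ) ≤ δ * n) →
        ∀ A ⊆ X, (∀ x ∈ A, ∃ W ∈ 𝒲, 1 / 3 + η ≤ ‖W.orthogonalProjectionOnto x‖ ^ 2) →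
          (A.card : ℝ) ≤ (2 : ℝ) ^ (-ε * n) * kissing n) ∧
      (∀ b : OrthonormalBasis (Fin n) ℝ (EuclideanSpace ℝ (Fin n)),
        ∀ A ⊆ X, (∀ x ∈ A, ∃ S : Finset (Fin n), (S.card : ℝ) ≤ δ * n ∧
            1 / 3 + η ≤ ∑ i ∈ S, ⟪b i, x⟫_ℝ ^ 2) →
          (A.card : ℝ) ≤ (2 : ℝ) ^ (-ε * n) * kissing n) ∧
      ∀ W : Submodule ℝ (EuclideanSpace ℝ (Fin n)), (Module.finrank ℝ W : ℝ) ≤ δ * n →
        ∑ x ∈ X, ‖W.orthogonalProjectionOnto x‖ ^ 2 ≤
          (1 / 3 + η) * X.card + (2 : ℝ) ^ (-ε * n) * kissing n := by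
  classical
  obtain ⟨δ₀, ε₀, hδ₀, hε₀, H⟩ := mass_asym hη
  have hl2 : 0 < Real.log 2 := Real.log_pos (by norm_num)
  set ε := ε₀ / 2 with hε
  have hε0 : 0 < ε := by positivity
  set x₀ := min 1 (ε * Real.log 2 / 2) with hx₀
  have hx0 : 0 < x₀ := lt_min one_pos (by positivity)
  have hx1 : x₀ ≤ 1 := min_le_left _ _
  have hxε : x₀ ≤ ε * Real.log 2 / 2 := min_le_right _ _
  have hlx : 0 ≤ Real.log (1 / x₀) := Real.log_nonneg (by rw [le_div_iff₀ hx0]; linarith)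
  set δ := min δ₀ (ε * Real.log 2 / (2 * (Real.log (1 / x₀) + 1))) with hδ
  have hδ0 : 0 < δ := lt_min hδ₀ (by positivity)
  have hδε : δ * Real.log (1 / x₀) ≤ ε * Real.log 2 / 2 := by
    calc δ * Real.log (1 / x₀) ≤ δ * (Real.log (1 / x₀) + 1) :=
          mul_le_mul_of_nonneg_left (by linarith) hδ0.le
      _ ≤ ε * Real.log 2 / (2 * (Real.log (1 / x₀) + 1)) * (Real.log (1 / x₀) + 1) :=
          mul_le_mul_of_nonneg_right (min_le_right _ _) (by linarith)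
      _ = ε * Real.log 2 / 2 := by field_simp
  refine ⟨δ, ε, hδ0, hε0, ?_⟩
  filter_upwards [H] with n Hn X hX
  have hn0 : (0 : ℝ) ≤ n := Nat.cast_nonneg n
  have hdn : δ * n ≤ δ₀ * n := mul_le_mul_of_nonneg_right (min_le_left _ _) hn0
  have hpw : (2 : ℝ) ^ (ε * n) * (2 : ℝ) ^ (-ε₀ * n) = (2 : ℝ) ^ (-ε * n) := by
    rw [← Real.rpow_add two_pos]
    congr 1
    rw [hε]
    ring
  have hfam : ∀ 𝒲 : Finset (Submodule ℝ (EuclideanSpace ℝ (Fin n))),
      (𝒲.card : ℝ) ≤ (2 : ℝ) ^ (ε * n) →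
      (∀ W ∈ 𝒲, (Module.finrank ℝ W : ℝ) ≤ δ * n) →
      ∀ A ⊆ X, (∀ x ∈ A, ∃ W ∈ 𝒲, 1 / 3 + η ≤ ‖W.orthogonalProjectionOnto x‖ ^ 2) →
        (A.card : ℝ) ≤ (2 : ℝ) ^ (-ε * n) * kissing n := by
    intro 𝒲 h𝒲 hdim A hAX hA
    have hsub : A ⊆ 𝒲.biUnion fun W =>
        A.filter fun x => 1 / 3 + η ≤ ‖W.orthogonalProjectionOnto x‖ ^ 2 := by
      intro x hx
      obtain ⟨W, hW, hxW⟩ := hA x hx
      exact Finset.mem_biUnion.2 ⟨W, hW, Finset.mem_filter.2 ⟨hx, hxW⟩⟩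
    have h1 : (A.card : ℝ) ≤ ∑ W ∈ 𝒲,
        ((A.filter fun x => 1 / 3 + η ≤ ‖W.orthogonalProjectionOnto x‖ ^ 2).card : ℝ) := by
      exact_mod_cast (Finset.card_le_card hsub).trans Finset.card_biUnion_le
    calc (A.card : ℝ) ≤ _ := h1
      _ ≤ ∑ _W ∈ 𝒲, (2 : ℝ) ^ (-ε₀ * n) * kissing n := by
          apply Finset.sum_le_sum
          intro W hW
          exact (Hn X hX W ((hdim W hW).trans hdn)).1 _
            ((Finset.filter_subset _ _).trans hAX) fun x hx => (Finset.mem_filter.1 hx).2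
      _ = 𝒲.card * ((2 : ℝ) ^ (-ε₀ * n) * kissing n) := by
          rw [Finset.sum_const, nsmul_eq_mul]
      _ ≤ (2 : ℝ) ^ (ε * n) * ((2 : ℝ) ^ (-ε₀ * n) * kissing n) :=
          mul_le_mul_of_nonneg_right h𝒲 (by positivity)
      _ = _ := by rw [← mul_assoc, hpw]
  refine ⟨hfam, fun b A hAX hA => ?_, fun W hW => ?_⟩
  · let 𝒮 : Finset (Finset (Fin n)) := Finset.univ.filter fun S => (S.card : ℝ) ≤ δ * n
    apply hfam (𝒮.image fun S : Finset (Fin n) => Submodule.span ℝ (b '' (S : Set (Fin n)))) _ _ A hAX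
    · intro x hx
      obtain ⟨S, hS, hxS⟩ := hA x hx
      refine ⟨_, Finset.mem_image_of_mem _ (Finset.mem_filter.2 ⟨Finset.mem_univ S, hS⟩), ?_⟩
      exact hxS.trans (sum_le_proj b S x)
    · have h1 : ((𝒮.image fun S : Finset (Fin n) => Submodule.span ℝ (b '' (S : Set (Fin n)))).card : ℝ) ≤
          𝒮.card := by exact_mod_cast Finset.card_image_le
      exact h1.trans (card_small hx0 hx1 hxε hδε 𝒮 fun S hS => (Finset.mem_filter.1 hS).2)
    · intro W hW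
      obtain ⟨S, hS, rfl⟩ := Finset.mem_image.1 hW
      have h1 : Module.finrank ℝ (Submodule.span ℝ (b '' (S : Set (Fin n)))) ≤ S.card := by
        have h2 := finrank_span_finset_le_card (R := ℝ) (S.image b)
        rw [Finset.coe_image] at h2
        exact h2.trans Finset.card_image_le
      have h2 : (Module.finrank ℝ (Submodule.span ℝ (b '' (S : Set (Fin n)))) : ℝ) ≤ S.card := by
        exact_mod_cast h1
      exact h2.trans (Finset.mem_filter.1 hS).2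
  · apply ((Hn X hX W (hW.trans hdn)).2).trans
    have h1 : (2 : ℝ) ^ (-ε₀ * n) ≤ (2 : ℝ) ^ (-ε * n) := by
      apply Real.rpow_le_rpow_of_exponent_le (by norm_num)
      rw [hε]
      nlinarith
    have := mul_le_mul_of_nonneg_right h1 (Nat.cast_nonneg (α := ℝ) (kissing n))
    linarith

end Pool.Agent.H976R3.Kiss
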